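import Pool.Agent.Helper15.WC.Step8

/-! Project V7. The fourth type for `n = 8`: `w ^ 8 = x ^ 5 p ^ 2 q ^ 4`, `deg p ≤ 3`, `deg q ≤ 1`, as a cyclic
cover of degree four of the plane with the coordinates `r`, `y`, where `r ^ 2 = x`. -/

set_option autoImplicit false

namespace Pool.Agent.Helper75.WC

open IntermediateField MvPolynomial Pool.Agent.Helper40.SD

section

variable {Ω R M : Type} [Field Ω] [IsAlgClosed Ω] [Field R] [Field M] [Algebra Ω R]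
    [Algebra Ω M] [Algebra R M] [IsScalarTower Ω R M] [FiniteDimensional R M]

/-- **The type `1, 5 | 2, 2, 2 | 4`.** -/
theorem Rep.step8w_iv {D : ℕ → ℕ} (H : Rep Ω R M 8 D) (hfin : Module.finrank R M = 8)
    {t e1 k1 k2 : ℕ} (ht : t.Coprime 8) (he1 : e1 < 8) (hk1 : k1 < 8) (hk2 : k2 < 8)
    (h1 : (t * e1) % 8 = 5) (h2 : (t * k1) % 8 = 2) (h3 : (t * k2) % 8 = 4)
    (hD : ∀ e < 8, e ≠ e1 → e ≠ k1 → e ≠ k2 → D e = 0) (hd1 : D e1 ≤ 1) (hd2 : D k1 ≤ 3)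
    (hd3 : D k2 ≤ 1) :
    ∃ x y w : M, (∀ r : R, algebraMap R M r ∈ adjoin Ω {x, y}) ∧ adjoin Ω {x, y, w} = ⊤ ∧
      IsWeighted Ω (Module.finrank (adjoin Ω {x, y}) M) x y w := by
  have hn1 : e1 ≠ k1 := by
    rintro rfl
    omega
  have hn2 : e1 ≠ k2 := by
    rintro rfl
    omega
  have hn3 : k1 ≠ k2 := by
    rintro rfl
    omega
  obtain ⟨x, y, w, p, q, hR, hw, hx, hp, hq, hp0, hq0, hw8⟩ := H.half hfin (o := 2) (s1 := 1)
    (s2 := 2) ht he1 hk1 hk2 hn1 hn2 hn3 (by rw [h1]) (Or.inr (by rw [h2])) (Or.inr (by rw [h3]))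
    hD hd1
  rw [pow_one] at hw8
  obtain ⟨r, hr0, hr2, hw4, hRM, hfin4, hgen⟩ := exists_half hR hw hfin hx
    (mul_ne_zero hp0 (pow_ne_zero 2 hq0)) hw8
  have hpM : aeval ![r, algebraMap R M y] (sqx p) = algebraMap R M (aeval ![x, y] p) := by
    rw [aeval_sqx, hr2, aeval_map75]
  have hqM : aeval ![r, algebraMap R M y] (sqx q) = algebraMap R M (aeval ![x, y] q) := by
    rw [aeval_sqx, hr2, aeval_map75]
  have hpM0 : algebraMap R M (aeval ![x, y] p) ≠ 0 := (map_ne_zero (algebraMap R M)).2 hp0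
  have hqM0 : algebraMap R M (aeval ![x, y] q) ≠ 0 := (map_ne_zero (algebraMap R M)).2 hq0
  rw [map_mul, map_pow] at hw4
  have hw0 : w ≠ 0 := by
    rintro rfl
    rw [zero_pow (by norm_num)] at hw4
    exact mul_ne_zero (pow_ne_zero _ hr0) (mul_ne_zero hpM0 (pow_ne_zero _ hqM0)) hw4.symm
  have mr : r ∈ adjoin Ω {r, algebraMap R M y} := subset_adjoin _ _ (by simp)
  refine ⟨r, algebraMap R M y, w / r, hRM, (gen_of_div hRM hgen mr hr0 hw0).1, ?_⟩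
  rw [hfin4]
  refine ⟨1, 2, 3, 2, 0, X 0 * (sqx p * sqx q ^ 2), 1, by norm_num, Or.inl (by norm_num),
    degLE_wd (K := 1 + (2 * 3 + 2 * (2 * 1))) ((WD.X 0).mul ((wd_sqx12 (hp.trans hd2)).mul
      ((wd_sqx12 (hq.trans hd3)).pow 2))) (by norm_num),
    Or.inl ⟨Or.inl rfl, degLE_wd (K := 0) ?_ (by norm_num), ?_, ?_⟩⟩
  · exact WD.C 1
  · rw [map_one]
    exact one_ne_zero
  · rw [map_mul, map_mul, map_pow, hpM, hqM, aeval_X, map_one, one_pow, mul_one]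
    change (_ : M) = r * _
    rw [div_pow, hw4]
    field_simp

theorem Rep.step8_iv {D : ℕ → ℕ} (H : Rep Ω R M 8 D) (hfin : Module.finrank R M = 8)
    {t e1 k1 k2 : ℕ} (ht : t.Coprime 8) (he1 : e1 < 8) (hk1 : k1 < 8) (hk2 : k2 < 8)
    (h1 : (t * e1) % 8 = 5) (h2 : (t * k1) % 8 = 2) (h3 : (t * k2) % 8 = 4)
    (hD : ∀ e < 8, e ≠ e1 → e ≠ k1 → e ≠ k2 → D e = 0) (hd1 : D e1 ≤ 1) (hd2 : D k1 ≤ 3)
    (hd3 : D k2 ≤ 1) : LstM Ω R M := by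
  obtain ⟨x, y, w, a, b, c⟩ := H.step8w_iv hfin ht he1 hk1 hk2 h1 h2 h3 hD hd1 hd2 hd3
  exact ⟨x, y, w, a, b, Or.inl c⟩

end

end Pool.Agent.Helper75.WC
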