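import Pool.Agent.Helper15.WC.Step8
import Pool.Agent.Helper75.WC.CurveEight

/-! Project V7. The cyclic covers of degree nine of the plane `w ^ 9 = x ^ o p ^ 3` and `w ^ 9 = x y ^ 4 q ^ 3` as
cyclic covers of degree three of the plane with the coordinates `r`, `y`, `r ^ 3 = x`, or `x`, `r`, `r ^ 3 = x y`. -/

set_option autoImplicit false

namespace Pool.Agent.Helper75.WC

open IntermediateField MvPolynomial Pool.Agent.Helper40.SD

/-! ### the substitution `x = r ^ 3` -/

/-- the polynomial `p(x ^ 3, y)` -/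
noncomputable def cubx {Ω : Type} [Field Ω] (p : MvPolynomial (Fin 2) Ω) : MvPolynomial (Fin 2) Ω :=
  aeval ![X 0 ^ 3, X 1] p

theorem aeval_cubx {Ω A : Type} [Field Ω] [Field A] [Algebra Ω A] (r y : A)
    (p : MvPolynomial (Fin 2) Ω) : aeval ![r, y] (cubx p) = aeval ![r ^ 3, y] p := by
  have h : (aeval ![r, y]).comp (aeval ![X 0 ^ 3, X 1] : MvPolynomial (Fin 2) Ω →ₐ[Ω] _) =
      (aeval ![r ^ 3, y] : MvPolynomial (Fin 2) Ω →ₐ[Ω] A) := by
    apply algHom_ext
    intro i
    fin_cases i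
    · simp
    · simp
  exact DFunLike.congr_fun h p

theorem wd_cubx {Ω : Type} [Field Ω] {w : Fin 2 → ℕ} {K : ℕ} {p : MvPolynomial (Fin 2) Ω}
    (h : ∀ m ∈ p.support, m 0 * (3 * w 0) + m 1 * w 1 ≤ K) : WD w K (cubx p) := by
  classical
  unfold cubx
  rw [aeval_def, eval₂_eq']
  refine wd_sum _ _ fun m hm => ?_
  have h1 : WD w (0 + (m 0 * (3 * w 0) + m 1 * w 1))
      ((algebraMap Ω (MvPolynomial (Fin 2) Ω)) (coeff m p) *
        ∏ i, ![X 0 ^ 3, X 1] i ^ m i) := by
    refine WD.mul (WD.C _) ?_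
    rw [Fin.prod_univ_two]
    exact ((WD.X 0).pow 3 |>.pow (m 0)).mul ((WD.X 1).pow (m 1))
  refine h1.mono ?_
  rw [zero_add]
  exact h m hm

/-- the weighted degree for `x` of weight one and `y` of weight three -/
theorem wd_cubx13 {Ω : Type} [Field Ω] {d : ℕ} {p : MvPolynomial (Fin 2) Ω}
    (h : p.totalDegree ≤ d) : WD ![1, 3] (3 * d) (cubx p) := by
  refine wd_cubx fun m hm => ?_
  have h1 : m 0 + m 1 ≤ d := by
    have := (le_totalDegree hm).trans h
    rwa [Finsupp.sum_fintype _ _ (fun _ => rfl), Fin.sum_univ_two] at this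
  change m 0 * (3 * 1) + m 1 * 3 ≤ _
  omega

/-- the polynomial `x ^ 2 q(x, z ^ 3 / x)` for a conic `q` -/
noncomputable def conx {Ω : Type} [Field Ω] (q : MvPolynomial (Fin 2) Ω) : MvPolynomial (Fin 2) Ω :=
  ∑ m ∈ q.support, C (coeff m q) * (X 0 ^ (m 0 + 2 - m 1) * X 1 ^ (3 * m 1))

theorem aeval_conx {Ω A : Type} [Field Ω] [Field A] [Algebra Ω A] {x y z : A}
    {q : MvPolynomial (Fin 2) Ω} (hq : q.totalDegree ≤ 2) (h : z ^ 3 = x * y) :
    aeval ![x, z] (conx q) = x ^ 2 * aeval ![x, y] q := by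
  classical
  have h2 : aeval ![x, y] q = ∑ m ∈ q.support, algebraMap Ω A (q.coeff m) *
      (x ^ m 0 * y ^ m 1) := by
    rw [aeval_def, eval₂_eq']
    refine Finset.sum_congr rfl fun m _ => ?_
    rw [Fin.prod_univ_two]
    rfl
  rw [h2, conx, map_sum, Finset.mul_sum]
  refine Finset.sum_congr rfl fun m hm => ?_
  have h1 : m 0 + m 1 ≤ 2 := by
    have := (le_totalDegree hm).trans hq
    rwa [Finsupp.sum_fintype _ _ (fun _ => rfl), Fin.sum_univ_two] at this
  rw [map_mul, map_mul, map_pow, map_pow, aeval_C, aeval_X, aeval_X]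
  change algebraMap Ω A _ * (x ^ (m 0 + 2 - m 1) * z ^ (3 * m 1)) = _
  rw [pow_mul, h, mul_pow]
  have h3 : x ^ (m 0 + 2 - m 1) * (x ^ m 1 * y ^ m 1) = x ^ 2 * (x ^ m 0 * y ^ m 1) := by
    rw [← mul_assoc, ← pow_add, show m 0 + 2 - m 1 + m 1 = 2 + m 0 by omega, pow_add, mul_assoc]
  rw [h3]
  ring

theorem wd_conx {Ω : Type} [Field Ω] {q : MvPolynomial (Fin 2) Ω} (hq : q.totalDegree ≤ 2) :
    WD ![3, 2] 12 (conx q) := by
  classical
  unfold conx
  refine wd_sum _ _ fun m hm => ?_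
  have h1 : m 0 + m 1 ≤ 2 := by
    have := (le_totalDegree hm).trans hq
    rwa [Finsupp.sum_fintype _ _ (fun _ => rfl), Fin.sum_univ_two] at this
  have h2 : WD ![3, 2] (0 + ((m 0 + 2 - m 1) * 3 + 3 * m 1 * 2))
      (C (coeff m q) * (X 0 ^ (m 0 + 2 - m 1) * X 1 ^ (3 * m 1)) : MvPolynomial (Fin 2) Ω) :=
    WD.mul (WD.C _) (((WD.X 0).pow (m 0 + 2 - m 1)).mul ((WD.X 1).pow (3 * m 1)))
  refine h2.mono ?_
  omega

/-! ### the degree -/

/-- **The intermediate field `Ω(u, v) = R(r)`, `r ^ q` in `R`.** -/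
theorem sub_field {Ω R M : Type} [Field Ω] [Field R] [Field M] [Algebra Ω R]
    [Algebra Ω M] [Algebra R M] [IsScalarTower Ω R M] [FiniteDimensional R M]
    {w : M} (hw : adjoin R {w} = ⊤) {n m q : ℕ} (hfin : Module.finrank R M = n) (hn : n = m * q)
    (hm : 0 < m) (hq : 0 < q) {r u v : M} {c : R} (hr : r ^ q = algebraMap R M c)
    (hmem : ∀ a : R, algebraMap R M a ∈ adjoin Ω {u, v}) (hru : r ∈ adjoin Ω {u, v})
    (hu : u ∈ adjoin R {r}) (hv : v ∈ adjoin R {r}) (hwr : w ^ m ∈ adjoin Ω {u, v}) :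
    Module.finrank (adjoin Ω {u, v}) M = m ∧
      ∀ w' : M, w ∈ adjoin Ω {u, v, w'} → adjoin Ω {u, v, w'} = ⊤ := by
  refine ⟨?_, fun w' hw' => ?_⟩
  · obtain ⟨B, hB⟩ : ∃ B : IntermediateField Ω M, B = adjoin Ω {u, v} := ⟨_, rfl⟩
    rw [← hB] at hmem hwr hru ⊢
    let _ : Algebra R B := RingHom.toAlgebra
      ({ toFun := fun r => ⟨algebraMap R M r, hmem r⟩
         map_one' := Subtype.ext (map_one _)
         map_mul' := fun a b => Subtype.ext (map_mul _ a b)
         map_zero' := Subtype.ext (map_zero _)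
         map_add' := fun a b => Subtype.ext (map_add _ a b) } : R →+* B)
    have _ : IsScalarTower R B M := IsScalarTower.of_algebraMap_eq fun r => rfl
    have hfd : FiniteDimensional B M := FiniteDimensional.right R B M
    have hfd' : FiniteDimensional R B := FiniteDimensional.left R B M
    have hmul := Module.finrank_mul_finrank R B M
    rw [hfin] at hmul
    -- `M = B(w)`
    have hBw : adjoin B {w} = ⊤ := by
      have h1 : adjoin R {w} ≤ (adjoin B {w}).restrictScalars R := by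
        rw [adjoin_le_iff]
        rintro s rfl
        exact subset_adjoin B _ rfl
      rw [hw] at h1
      rw [eq_top_iff]
      intro k _
      exact h1 (mem_top (x := k))
    have h4 : Module.finrank B M ≤ m :=
      finrank_le_of_pow hBw hm (c := ⟨w ^ m, hwr⟩) rfl
    -- `B = R(r)`
    have hBr : adjoin R {(⟨r, hru⟩ : B)} = ⊤ := by
      have h0 : (adjoin R {(⟨r, hru⟩ : B)}).map (IsScalarTower.toAlgHom R B M) = adjoin R {r} := by
        rw [adjoin_map, Set.image_singleton]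
        rfl
      have h1 : ∀ k (hk : k ∈ adjoin Ω {u, v}),
          (⟨k, by rw [hB]; exact hk⟩ : B) ∈ adjoin R {(⟨r, hru⟩ : B)} := by
        have h2 : adjoin Ω {u, v} ≤
            ((adjoin R {(⟨r, hru⟩ : B)}).map (IsScalarTower.toAlgHom R B M)).restrictScalars Ω := by
          rw [adjoin_le_iff, h0]
          rintro s (rfl | rfl)
          · exact hu
          · exact hv
        intro k hk
        obtain ⟨b, hb, hb'⟩ := h2 hk
        have h3 : b = ⟨k, by rw [hB]; exact hk⟩ := Subtype.ext hb'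
        rw [← h3]
        exact hb
      rw [eq_top_iff]
      intro k _
      exact h1 k.1 (by rw [← hB]; exact k.2)
    have h2 : Module.finrank R B ≤ q :=
      finrank_le_of_pow hBr hq (c := c) (Subtype.ext hr)
    have h5 : Module.finrank R B * Module.finrank B M ≤ q * Module.finrank B M :=
      Nat.mul_le_mul_right _ h2
    have h6 : m * q ≤ Module.finrank B M * q := by
      rw [← hn, ← hmul, mul_comm _ q]
      exact h5
    have h7 := Nat.le_of_mul_le_mul_right h6 hq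
    omega
  · have h1 : ∀ a : R, algebraMap R M a ∈ adjoin Ω {u, v, w'} := fun a =>
      adjoin.mono Ω {u, v} _ (by rintro s (rfl | rfl) <;> simp) (hmem a)
    let A : IntermediateField R M :=
      { (adjoin Ω {u, v, w'}).toSubfield with
        algebraMap_mem' := h1 }
    have h2 : adjoin R {w} ≤ A := by
      rw [adjoin_le_iff]
      rintro s rfl
      exact hw'
    rw [hw] at h2
    rw [eq_top_iff]
    intro k _
    exact h2 (mem_top (x := k))

/-- all the elements of `R = Ω(x, y)` are in `B` -/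
theorem mem_of_gen {Ω R M : Type} [Field Ω] [Field R] [Field M] [Algebra Ω R]
    [Algebra Ω M] [Algebra R M] [IsScalarTower Ω R M] {x y : R} (hR : adjoin Ω {x, y} = ⊤)
    (B : IntermediateField Ω M) (h1 : algebraMap R M x ∈ B) (h2 : algebraMap R M y ∈ B) (a : R) :
    algebraMap R M a ∈ B := by
  have h3 : adjoin Ω {x, y} ≤ B.comap (IsScalarTower.toAlgHom Ω R M) := by
    rw [adjoin_le_iff]
    rintro s (rfl | rfl)
    · exact h1
    · exact h2
  rw [hR] at h3
  exact h3 (mem_top (x := a))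

/-- The cube root of `x`. -/
theorem exists_third {Ω R M : Type} [Field Ω] [Field R] [Field M] [Algebra Ω R]
    [Algebra Ω M] [Algebra R M] [IsScalarTower Ω R M] [FiniteDimensional R M] {x y : R}
    (hR : adjoin Ω {x, y} = ⊤) {w : M} (hw : adjoin R {w} = ⊤)
    (hfin : Module.finrank R M = 9) {o : ℕ} (ho : o % 3 ≠ 0) {A : R} (hx : x ≠ 0) (hA : A ≠ 0)
    (h : w ^ 9 = algebraMap R M (x ^ o * A ^ 3)) :
    ∃ r : M, r ≠ 0 ∧ r ^ 3 = algebraMap R M x ∧ w ^ 3 = r ^ o * algebraMap R M A ∧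
      (∀ a : R, algebraMap R M a ∈ adjoin Ω {r, algebraMap R M y}) ∧
      Module.finrank (adjoin Ω {r, algebraMap R M y}) M = 3 ∧
      ∀ w' : M, w ∈ adjoin Ω {r, algebraMap R M y, w'} →
        adjoin Ω {r, algebraMap R M y, w'} = ⊤ := by
  have hxM : algebraMap R M x ≠ 0 := by simpa using hx
  have hAM : algebraMap R M A ≠ 0 := by simpa using hA
  obtain ⟨k, hk⟩ : ∃ k, k = o / 3 := ⟨_, rfl⟩
  obtain ⟨ρ, hρ⟩ : ∃ ρ : M, ρ = w ^ 3 / (algebraMap R M x ^ k * algebraMap R M A) := ⟨_, rfl⟩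
  have hden : algebraMap R M x ^ k * algebraMap R M A ≠ 0 := mul_ne_zero (pow_ne_zero _ hxM) hAM
  have hw3 : w ^ 3 = ρ * (algebraMap R M x ^ k * algebraMap R M A) := by
    rw [hρ, div_mul_cancel₀ _ hden]
  have hρ3 : ρ ^ 3 * algebraMap R M x ^ (3 * k) = algebraMap R M x ^ o := by
    have e1 : (w ^ 3) ^ 3 = algebraMap R M x ^ o * algebraMap R M A ^ 3 := by
      rw [← pow_mul, h, map_mul, map_pow, map_pow]
    rw [hw3, mul_pow, mul_pow, ← pow_mul, mul_comm k 3] at e1
    have e2 : (ρ ^ 3 * algebraMap R M x ^ (3 * k)) * algebraMap R M A ^ 3 =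
        algebraMap R M x ^ o * algebraMap R M A ^ 3 := by
      rw [← e1]
      ring
    exact mul_right_cancel₀ (pow_ne_zero 3 hAM) e2
  obtain ⟨r, hr3, hw3'⟩ : ∃ r : M, r ^ 3 = algebraMap R M x ∧
      w ^ 3 = r ^ o * algebraMap R M A := by
    have hcase : o = 3 * k + 1 ∨ o = 3 * k + 2 := by omega
    rcases hcase with ho' | ho'
    · have h1 : ρ ^ 3 = algebraMap R M x := by
        have e1 : ρ ^ 3 * algebraMap R M x ^ (3 * k) =
            algebraMap R M x * algebraMap R M x ^ (3 * k) := by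
          rw [hρ3, ho']
          ring
        exact mul_right_cancel₀ (pow_ne_zero _ hxM) e1
      refine ⟨ρ, h1, ?_⟩
      rw [hw3, ho', ← h1]
      ring
    · have h1 : ρ ^ 3 = algebraMap R M x ^ 2 := by
        have e1 : ρ ^ 3 * algebraMap R M x ^ (3 * k) =
            algebraMap R M x ^ 2 * algebraMap R M x ^ (3 * k) := by
          rw [hρ3, ho']
          ring
        exact mul_right_cancel₀ (pow_ne_zero _ hxM) e1
      have hρ0 : ρ ≠ 0 := by
        rintro rfl
        rw [zero_pow (by norm_num)] at h1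
        exact pow_ne_zero 2 hxM h1.symm
      have h2 : (algebraMap R M x / ρ) ^ 3 = algebraMap R M x := by
        rw [div_pow, h1, div_eq_iff (pow_ne_zero 2 hxM)]
        ring
      refine ⟨algebraMap R M x / ρ, h2, ?_⟩
      have h3 : (algebraMap R M x / ρ) ^ (3 * k + 2) =
          algebraMap R M x ^ k * (algebraMap R M x / ρ) ^ 2 := by
        rw [pow_add, pow_mul, h2]
      have h4 : (algebraMap R M x / ρ) ^ 2 = ρ := by
        rw [div_pow, ← h1, div_eq_iff (pow_ne_zero 2 hρ0)]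
        ring
      rw [ho', h3, h4, hw3]
      ring
  have hr0 : r ≠ 0 := by
    rintro rfl
    apply hxM
    rw [← hr3]
    ring
  have mr : r ∈ adjoin Ω {r, algebraMap R M y} := subset_adjoin _ _ (by simp)
  have my : algebraMap R M y ∈ adjoin Ω {r, algebraMap R M y} := subset_adjoin _ _ (by simp)
  have hmem : ∀ a : R, algebraMap R M a ∈ adjoin Ω {r, algebraMap R M y} :=
    mem_of_gen hR _ (by rw [← hr3]; exact pow_mem mr 3) my
  obtain ⟨h2, h3⟩ := sub_field (Ω := Ω) hw hfin (m := 3) (q := 3) (by norm_num) (by norm_num)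
    (by norm_num) hr3 hmem mr (subset_adjoin R _ rfl) ((adjoin R {r}).algebraMap_mem y)
    (by rw [hw3']; exact mul_mem (pow_mem mr _) (hmem A))
  exact ⟨r, hr0, hr3, hw3', hmem, h2, h3⟩

section

variable {Ω R M : Type} [Field Ω] [IsAlgClosed Ω] [Field R] [Field M] [Algebra Ω R]
    [Algebra Ω M] [Algebra R M] [IsScalarTower Ω R M] [FiniteDimensional R M]

omit [IsAlgClosed Ω] in
/-- `w ^ 9 = x ^ o p ^ 3`, `o = 1, 4` or `o = 5`, for a cubic `p` if `o = 1` or `o = 4`, a conic for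
`o = 5` -/
theorem third_lst {x y : R} (hR : adjoin Ω {x, y} = ⊤) {w : M} (hw : adjoin R {w} = ⊤)
    (hfin : Module.finrank R M = 9) {k e d : ℕ} (he : e = 1 ∨ e = 2) (hed : e + 3 * d ≤ 10)
    {p : MvPolynomial (Fin 2) Ω} (hp : p.totalDegree ≤ d)
    (hx : x ≠ 0) (hp0 : aeval ![x, y] p ≠ 0)
    (h : w ^ 9 = algebraMap R M (x ^ (3 * k + e) * aeval ![x, y] p ^ 3)) : LstM Ω R M := by
  obtain ⟨r, hr0, hr3, hw3, hRM, hfin3, hgen⟩ := exists_third hR hw hfin (by omega) hx hp0 h
  have hpM : aeval ![r, algebraMap R M y] (cubx p) = algebraMap R M (aeval ![x, y] p) := by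
    rw [aeval_cubx, hr3, aeval_map75]
  have hpM0 : algebraMap R M (aeval ![x, y] p) ≠ 0 := (map_ne_zero (algebraMap R M)).2 hp0
  have hw0 : w ≠ 0 := by
    rintro rfl
    rw [zero_pow (by norm_num)] at hw3
    exact mul_ne_zero (pow_ne_zero _ hr0) hpM0 hw3.symm
  have mr : r ∈ adjoin Ω {r, algebraMap R M y} := subset_adjoin _ _ (by simp)
  refine ⟨r, algebraMap R M y, w / r ^ k, hRM,
    (gen_of_div hRM hgen (pow_mem mr k) (pow_ne_zero _ hr0) hw0).1, Or.inl ?_⟩
  rw [hfin3]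
  refine ⟨1, 3, 2, 2, 1, X 0 ^ e * cubx p, 1, by norm_num, Or.inl (by norm_num),
    degLE_wd (K := e * 1 + 3 * d) (((WD.X 0).pow e).mul (wd_cubx13 hp)) (by omega),
    Or.inl ⟨Or.inl rfl, degLE_wd (K := 0) (WD.C 1) (by norm_num), ?_, ?_⟩⟩
  · rw [map_one]
    exact one_ne_zero
  · rw [map_mul, hpM, map_pow, aeval_X, map_one, one_pow, mul_one]
    change (_ : M) = r ^ e * _
    rw [div_pow, hw3, div_eq_iff (pow_ne_zero _ (pow_ne_zero _ hr0))]
    ring

end

/-! ### representations -/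

theorem prodP_two {Ω : Type} [Field Ω] {n : ℕ} {P : ℕ → MvPolynomial (Fin 2) Ω} {b : ℕ → ℕ}
    {e1 k1 : ℕ} (he1 : e1 < n) (hk1 : k1 < n) (h1 : e1 ≠ k1)
    (h : ∀ e < n, e ≠ e1 → e ≠ k1 → b e = 0) :
    prodP n P b = P e1 ^ b e1 * P k1 ^ b k1 := by
  classical
  unfold prodP
  have hsub : ({e1, k1} : Finset ℕ) ⊆ Finset.range n := by
    intro e he
    simp only [Finset.mem_insert, Finset.mem_singleton] at he
    rw [Finset.mem_range]
    rcases he with rfl | rfl <;> assumption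
  rw [← Finset.prod_subset hsub, Finset.prod_insert (by simpa using h1), Finset.prod_singleton]
  intro e he hne
  simp only [Finset.mem_insert, Finset.mem_singleton, not_or] at hne
  rw [h e (Finset.mem_range.1 he) hne.1 hne.2, pow_zero]

/-- a constant component can be left out of the type -/
theorem Rep.lower {Ω R M : Type} [Field Ω] [Field R] [Field M] [Algebra Ω R]
    [Algebra Ω M] [Algebra R M] {n : ℕ} {D : ℕ → ℕ} (H : Rep Ω R M n D) {e1 : ℕ}
    (h : (H.P e1).totalDegree ≤ 0) : ∃ H' : Rep Ω R M n (Function.update D e1 0), H'.P = H.P :=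
  ⟨⟨H.x, H.y, H.w, H.P, H.gen, H.top, fun e => by
    by_cases he : e = e1
    · subst he
      rw [Function.update_self]
      exact h
    · rw [Function.update_of_ne he]
      exact H.deg e, H.ne, H.eq⟩, rfl⟩

theorem three_dvd_of {t k r : ℕ} (ht : t.Coprime 9) (h : (t * k) % 9 = 3 * r) : 3 ∣ k := by
  have h1 : 3 ∣ t * k := by omega
  have h2 : Nat.Coprime 3 t := by
    have : Nat.Coprime t 3 := Nat.Coprime.coprime_dvd_right (by norm_num) ht
    exact this.symm
  exact h2.dvd_of_dvd_mul_left h1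

section

variable {Ω R M : Type} [Field Ω] [IsAlgClosed Ω] [Field R] [Field M] [Algebra Ω R]
    [Algebra Ω M] [Algebra R M] [IsScalarTower Ω R M] [FiniteDimensional R M]

/-- One line, `w ^ 9 = x ^ o p ^ 3` after a twist. -/
theorem Rep.nine_one {D : ℕ → ℕ} (H : Rep Ω R M 9 D) (hfin : Module.finrank R M = 9)
    {t e1 k1 k e d : ℕ} (ht : t.Coprime 9) (he1 : e1 < 9) (hk1 : k1 < 9) (he : e = 1 ∨ e = 2)
    (hed : e + 3 * d ≤ 10) (h1 : (t * e1) % 9 = 3 * k + e)
    (h2 : (t * k1) % 9 = 3) (hD : ∀ e < 9, e ≠ e1 → e ≠ k1 → D e = 0) (hd1 : D e1 ≤ 1)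
    (hd2 : D k1 ≤ d) : LstM Ω R M := by
  have hn1 : e1 ≠ k1 := by
    rintro rfl
    omega
  have h3k : 3 ∣ k1 := three_dvd_of ht (r := 1) h2
  obtain ⟨H', hax⟩ := H.axis hd1
  rcases hax with hax | hax
  swap
  · obtain ⟨H'', -⟩ := H'.lower hax
    refine (H''.no_common (by norm_num) hfin (g := 3) (by norm_num) (by norm_num)
      fun e he => ?_).elim
    by_cases e_1 : e = e1
    · subst e_1
      exact Or.inl (Function.update_self _ _ _)
    by_cases e_2 : e = k1
    · subst e_2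
      exact Or.inr h3k
    · rw [Function.update_of_ne e_1]
      exact Or.inl (hD e he e_1 e_2)
  obtain ⟨b, hb⟩ : ∃ b : ℕ → ℕ, b = fun i => if i = e1 then 3 * k + e else if i = k1 then 3
    else 0 := ⟨_, rfl⟩
  have be1 : b e1 = 3 * k + e := by rw [hb]; simp
  have bk1 : b k1 = 3 := by rw [hb]; simp [Ne.symm hn1]
  obtain ⟨w, hw, hw9⟩ := H'.twist (by norm_num) ht (fun _ => 0) b (fun i hi => by
    by_cases e_1 : i = e1
    · subst e_1
      rw [be1, Nat.add_zero, h1]
      exact Or.inr (by omega)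
    by_cases e_2 : i = k1
    · subst e_2
      rw [bk1, Nat.add_zero, h2]
      exact Or.inr rfl
    · exact Or.inl (hD i hi e_1 e_2))
  have h0 : prodP 9 H'.P (fun _ => 0) = 1 := by
    unfold prodP
    simp
  rw [h0, map_one, map_one, mul_one, prodP_two he1 hk1 hn1 (fun e _ e_1 e_2 => by
    rw [hb]; simp [e_1, e_2]), be1, bk1] at hw9
  have hx : aeval ![H'.x, H'.y] (H'.P e1) = H'.x := by
    rw [hax, aeval_X]
    rfl
  have hx0 := H'.ne e1
  rw [hx] at hx0
  refine third_lst H'.gen hw hfin (k := k) he hed ((H'.deg k1).trans hd2) hx0 (H'.ne k1) ?_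
  rw [hw9, map_mul, map_pow, map_pow, hx]

/-- **The type `1, 8 | 3, 3, 3`.** -/
theorem Rep.step9_i {D : ℕ → ℕ} (H : Rep Ω R M 9 D) (hfin : Module.finrank R M = 9)
    {t e1 k1 : ℕ} (ht : t.Coprime 9) (he1 : e1 < 9) (hk1 : k1 < 9) (h1 : (t * e1) % 9 = 1)
    (h2 : (t * k1) % 9 = 3) (hD : ∀ e < 9, e ≠ e1 → e ≠ k1 → D e = 0) (hd1 : D e1 ≤ 1)
    (hd2 : D k1 ≤ 3) : LstM Ω R M :=
  H.nine_one hfin (k := 0) (e := 1) (d := 3) ht he1 hk1 (Or.inl rfl) (by norm_num) (by rw [h1])
    h2 hD hd1 hd2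

omit [IsAlgClosed Ω] in
/-- `w ^ 9 = x y ^ 4 q ^ 3` -/
theorem conic_lst {x y : R} (hR : adjoin Ω {x, y} = ⊤) {w : M} (hw : adjoin R {w} = ⊤)
    (hfin : Module.finrank R M = 9) {q : MvPolynomial (Fin 2) Ω} (hq : q.totalDegree ≤ 2)
    (hx : x ≠ 0) (hy : y ≠ 0) (hq0 : aeval ![x, y] q ≠ 0)
    (h : w ^ 9 = algebraMap R M (x * y ^ 4 * aeval ![x, y] q ^ 3)) : LstM Ω R M := by
  have hxM : algebraMap R M x ≠ 0 := by simpa using hx
  have hyM : algebraMap R M y ≠ 0 := by simpa using hy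
  have hqM0 : algebraMap R M (aeval ![x, y] q) ≠ 0 := (map_ne_zero (algebraMap R M)).2 hq0
  obtain ⟨r, hr⟩ : ∃ r : M, r = w ^ 3 / (algebraMap R M y * algebraMap R M (aeval ![x, y] q)) :=
    ⟨_, rfl⟩
  have hden : algebraMap R M y * algebraMap R M (aeval ![x, y] q) ≠ 0 := mul_ne_zero hyM hqM0
  have hw3 : w ^ 3 = r * (algebraMap R M y * algebraMap R M (aeval ![x, y] q)) := by
    rw [hr, div_mul_cancel₀ _ hden]
  have hr3 : r ^ 3 = algebraMap R M (x * y) := by
    rw [hr, div_pow, div_eq_iff (pow_ne_zero _ hden), ← pow_mul, h, map_mul, map_mul, map_pow,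
      map_pow, map_mul]
    ring
  have hr3' : r ^ 3 = algebraMap R M x * algebraMap R M y := by rw [hr3, map_mul]
  have hr0 : r ≠ 0 := by
    rintro rfl
    rw [zero_pow (by norm_num)] at hr3'
    exact mul_ne_zero hxM hyM hr3'.symm
  have hw0 : w ≠ 0 := by
    rintro rfl
    rw [zero_pow (by norm_num)] at hw3
    exact mul_ne_zero hr0 hden hw3.symm
  have mx : algebraMap R M x ∈ adjoin Ω {algebraMap R M x, r} := subset_adjoin _ _ (by simp)
  have mr : r ∈ adjoin Ω {algebraMap R M x, r} := subset_adjoin _ _ (by simp)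
  have my : algebraMap R M y ∈ adjoin Ω {algebraMap R M x, r} := by
    have h1 : algebraMap R M y = r ^ 3 / algebraMap R M x := by
      rw [hr3']
      field_simp
    rw [h1]
    exact div_mem (pow_mem mr 3) mx
  have hmem := mem_of_gen hR (adjoin Ω {algebraMap R M x, r}) mx my
  obtain ⟨hfin3, hgen⟩ := sub_field (Ω := Ω) hw hfin (m := 3) (q := 3) (by norm_num)
    (by norm_num) (by norm_num) hr3 hmem mr ((adjoin R {r}).algebraMap_mem x)
    (subset_adjoin R _ rfl) (by rw [hw3]; exact mul_mem mr (mul_mem my (hmem _)))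
  have hu : r / algebraMap R M x ∈ adjoin Ω {algebraMap R M x, r} := div_mem mr mx
  have hu0 : r / algebraMap R M x ≠ 0 := div_ne_zero hr0 hxM
  refine ⟨algebraMap R M x, r, w / (r / algebraMap R M x), hmem,
    (gen_of_div hmem hgen hu hu0 hw0).1, Or.inl ?_⟩
  rw [hfin3]
  refine ⟨3, 2, 5, 2, 1, X 1 * conx q, 1, by norm_num, Or.inl (by norm_num),
    degLE_wd (K := 2 + 12) ((WD.X 1).mul (wd_conx hq)) (by norm_num),
    Or.inl ⟨Or.inl rfl, degLE_wd (K := 0) (WD.C 1) (by norm_num), ?_, ?_⟩⟩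
  · rw [map_one]
    exact one_ne_zero
  · rw [map_mul, aeval_conx (y := algebraMap R M y) hq hr3', aeval_X, map_one, one_pow, mul_one,
      aeval_map75]
    change (_ : M) = r * _
    rw [div_pow, div_pow, hw3, div_eq_iff (div_ne_zero (pow_ne_zero _ hr0) (pow_ne_zero _ hxM)),
      hr3']
    field_simp

/-- **The type `1, 4, 7 | 3, 3`.** Either `M` is in the list or the three lines have a common point. -/
theorem Rep.step9_ii {D : ℕ → ℕ} (H : Rep Ω R M 9 D) (hfin : Module.finrank R M = 9)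
    {t e1 e2 k1 : ℕ} (ht : t.Coprime 9) (he1 : e1 < 9) (he2 : e2 < 9) (hk1 : k1 < 9)
    (h1 : (t * e1) % 9 = 1) (h2 : (t * e2) % 9 = 4) (h3 : (t * k1) % 9 = 3)
    (hD : ∀ e < 9, e ≠ e1 → e ≠ e2 → e ≠ k1 → D e = 0) (hd1 : D e1 ≤ 1) (hd2 : D e2 ≤ 1)
    (hd3 : D k1 ≤ 2) :
    LstM Ω R M ∨ ∃ (x y : R) (w : M) (κ : Ω) (q : MvPolynomial (Fin 2) Ω),
      adjoin Ω {x, y} = ⊤ ∧ adjoin R {w} = ⊤ ∧ κ ≠ 0 ∧ q.totalDegree ≤ 2 ∧
      aeval ![x, y] q ≠ 0 ∧
      w ^ 9 = algebraMap R M (x * (x + algebraMap Ω R κ) ^ 4 * aeval ![x, y] q ^ 3) := by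
  have hn1 : e1 ≠ e2 := by
    rintro rfl
    omega
  have hn2 : e1 ≠ k1 := by
    rintro rfl
    omega
  have hn3 : e2 ≠ k1 := by
    rintro rfl
    omega
  obtain ⟨H', hax⟩ := H.axis hd1
  rcases hax with hax | hax
  swap
  · -- the first line is the line at infinity
    left
    obtain ⟨H'', -⟩ := H'.lower hax
    refine H''.nine_one hfin (k := 1) (e := 1) (d := 2) ht he2 hk1 (Or.inl rfl) (by norm_num)
      (by rw [h2]) h3 (fun e he a b => ?_) ?_ ?_
    · by_cases e_1 : e = e1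
      · subst e_1
        exact Function.update_self _ _ _
      · rw [Function.update_of_ne e_1]
        exact hD e he e_1 a b
    · rw [Function.update_of_ne (Ne.symm hn1)]
      exact hd2
    · rw [Function.update_of_ne (Ne.symm hn2)]
      exact hd3
  by_cases hc2 : (H'.P e2).totalDegree ≤ 0
  · left
    obtain ⟨H'', -⟩ := H'.lower hc2
    refine H''.nine_one hfin (k := 0) (e := 1) (d := 2) ht he1 hk1 (Or.inl rfl) (by norm_num)
      (by rw [h1]) h3 (fun e he a b => ?_) ?_ ?_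
    · by_cases e_1 : e = e2
      · subst e_1
        exact Function.update_self _ _ _
      · rw [Function.update_of_ne e_1]
        exact hD e he a e_1 b
    · rw [Function.update_of_ne hn1]
      exact hd1
    · rw [Function.update_of_ne (Ne.symm hn3)]
      exact hd3
  -- the equation
  obtain ⟨b, hb⟩ : ∃ b : ℕ → ℕ, b = fun i => if i = e1 then 1 else if i = e2 then 4
    else if i = k1 then 3 else 0 := ⟨_, rfl⟩
  have be1 : b e1 = 1 := by rw [hb]; simp
  have be2 : b e2 = 4 := by rw [hb]; simp [Ne.symm hn1]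
  have bk1 : b k1 = 3 := by rw [hb]; simp [Ne.symm hn2, Ne.symm hn3]
  obtain ⟨w, hw, hw9⟩ := H'.twist (by norm_num) ht (fun _ => 0) b (fun i hi => by
    by_cases e_1 : i = e1
    · subst e_1
      rw [be1, Nat.add_zero, h1]
      exact Or.inr rfl
    by_cases e_2 : i = e2
    · subst e_2
      rw [be2, Nat.add_zero, h2]
      exact Or.inr rfl
    by_cases e_3 : i = k1
    · subst e_3
      rw [bk1, Nat.add_zero, h3]
      exact Or.inr rfl
    · exact Or.inl (hD i hi e_1 e_2 e_3))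
  have h0 : prodP 9 H'.P (fun _ => 0) = 1 := by
    unfold prodP
    simp
  rw [h0, map_one, map_one, mul_one, prodP_three he1 he2 hk1 hn1 hn2 hn3 (fun e _ a b c => by
    rw [hb]; simp [a, b, c]), be1, be2, bk1, pow_one] at hw9
  simp only [map_mul (aeval ![H'.x, H'.y]), map_pow (aeval ![H'.x, H'.y])] at hw9
  have hx : aeval ![H'.x, H'.y] (H'.P e1) = H'.x := by
    rw [hax, aeval_X]
    rfl
  have hx0 := H'.ne e1
  rw [hx] at hx0 hw9
  obtain ⟨α, β, γ, hl⟩ := line_form ((H'.deg e2).trans hd2)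
  have hl0 := H'.ne e2
  obtain ⟨L, hL⟩ : ∃ L : R, L = aeval ![H'.x, H'.y] (H'.P e2) := ⟨_, rfl⟩
  rw [← hL] at hl0 hw9
  have hL' : L = algebraMap Ω R α * H'.x + algebraMap Ω R β * H'.y + algebraMap Ω R γ := by
    rw [hL, hl]
    simp
  by_cases hβ : β = 0
  · have hα : α ≠ 0 := by
      rintro rfl
      apply hc2
      rw [hl, hβ]
      simp
    have hαR : algebraMap Ω R α ≠ 0 := by simpa using hα
    obtain ⟨δ, hδ⟩ := IsAlgClosed.exists_pow_nat_eq (α ^ 4) (n := 3) (by norm_num)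
    have hδ0 : δ ≠ 0 := by
      rintro rfl
      rw [zero_pow (by norm_num)] at hδ
      exact pow_ne_zero 4 hα hδ.symm
    have hδR : algebraMap Ω R δ ≠ 0 := by simpa using hδ0
    obtain ⟨p, hp⟩ : ∃ p : MvPolynomial (Fin 2) Ω, p = C δ * H'.P k1 := ⟨_, rfl⟩
    have hpd : p.totalDegree ≤ 2 := by
      rw [hp]
      refine (totalDegree_mul _ _).trans ?_
      rw [totalDegree_C, zero_add]
      exact (H'.deg k1).trans hd3
    have hpe : aeval ![H'.x, H'.y] p = algebraMap Ω R δ * aeval ![H'.x, H'.y] (H'.P k1) := by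
      rw [hp, map_mul, aeval_C]
    have hp0 : aeval ![H'.x, H'.y] p ≠ 0 := by
      rw [hpe]
      exact mul_ne_zero hδR (H'.ne k1)
    obtain ⟨κ, hκ⟩ : ∃ κ : Ω, κ = γ / α := ⟨_, rfl⟩
    have hLκ : L = algebraMap Ω R α * (H'.x + algebraMap Ω R κ) := by
      rw [hL', hβ, map_zero, zero_mul, add_zero, hκ, map_div₀]
      field_simp
    have hw9' : w ^ 9 = algebraMap R M (H'.x * (H'.x + algebraMap Ω R κ) ^ 4 *
        aeval ![H'.x, H'.y] p ^ 3) := by
      rw [hw9, hLκ, hpe, mul_pow, mul_pow, ← map_pow (algebraMap Ω R), ← map_pow (algebraMap Ω R),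
        hδ]
      congr 1
      ring
    by_cases hκ0 : κ = 0
    · left
      rw [hκ0, map_zero, add_zero] at hw9'
      refine third_lst H'.gen hw hfin (k := 1) (e := 2) (d := 2) (Or.inr rfl) (by norm_num) hpd
        hx0 hp0 ?_
      rw [hw9']
      congr 1
      ring
    · exact Or.inr ⟨H'.x, H'.y, w, κ, p, H'.gen, hw, hκ0, hpd, hp0, hw9'⟩
  · -- new coordinates
    left
    have hβR : algebraMap Ω R β ≠ 0 := by simpa using hβ
    have hy : H'.y = (L - algebraMap Ω R α * H'.x - algebraMap Ω R γ) / algebraMap Ω R β := by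
      rw [hL']
      field_simp
      ring
    obtain ⟨B, hB⟩ : ∃ B : MvPolynomial (Fin 2) Ω,
      B = C β⁻¹ * (C (-γ) + C (-α) * X 0 + C 1 * X 1) := ⟨_, rfl⟩
    have hB1 : B.totalDegree ≤ 1 := by
      rw [hB]
      refine (totalDegree_mul _ _).trans ?_
      rw [totalDegree_C, zero_add]
      refine (totalDegree_add _ _).trans (max_le ((totalDegree_add _ _).trans (max_le ?_ ?_)) ?_)
      · rw [totalDegree_C]
        omega
      · refine (totalDegree_mul _ _).trans ?_
        rw [totalDegree_C, zero_add]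
        exact (totalDegree_X 0).le
      · refine (totalDegree_mul _ _).trans ?_
        rw [totalDegree_C, zero_add]
        exact (totalDegree_X 1).le
    have hBy : aeval ![H'.x, L] B = H'.y := by
      rw [hB, hy]
      simp only [map_mul, map_add, aeval_C, aeval_X, map_neg, map_one, map_inv₀]
      change (algebraMap Ω R β)⁻¹ * (-algebraMap Ω R γ + -algebraMap Ω R α * H'.x + 1 * L) = _
      field_simp
      ring
    have hAx : aeval ![H'.x, L] (X 0 : MvPolynomial (Fin 2) Ω) = H'.x := by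
      rw [aeval_X]
      rfl
    obtain ⟨q, hq, hqe⟩ := moved_aff (A := X 0) (B := B) (totalDegree_X 0).le hB1 hAx hBy
      (H'.P k1) ((H'.deg k1).trans hd3)
    have hgen : adjoin Ω {H'.x, L} = ⊤ := by
      rw [eq_top_iff, ← H'.gen, adjoin_le_iff]
      have m1 : H'.x ∈ adjoin Ω {H'.x, L} := subset_adjoin _ _ (by simp)
      have m2 : L ∈ adjoin Ω {H'.x, L} := subset_adjoin _ _ (by simp)
      rintro s (hs | hs)
      · rw [hs]
        exact m1
      · rw [Set.mem_singleton_iff] at hs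
        rw [hs, SetLike.mem_coe, hy]
        exact div_mem (sub_mem (sub_mem m2 (mul_mem (IntermediateField.algebraMap_mem _ _) m1))
          (IntermediateField.algebraMap_mem _ _)) (IntermediateField.algebraMap_mem _ _)
    refine conic_lst hgen hw hfin hq hx0 hl0 ?_ ?_
    · rw [hqe]
      exact H'.ne k1
    · rw [hqe, hw9]
      congr 1
      ring

end

end Pool.Agent.Helper75.WC
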