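import Pool.Agent.Helper43.V7.Fin
import Pool.Agent.Helper75.WC.CurveFin
import Pool.Agent.Helper9.TR.RowM

/-! Project V7. The list of equations and the criterion. -/

set_option autoImplicit false

namespace Pool.Agent.Helper48.V7

open IntermediateField MvPolynomial Pool.Agent.Helper75.QC Pool.Agent.Helper35.V7

/-- The weighted degree of `r ^ i * f(x, y)` is at most `k`; the weights of `x`, `y`, `r` are
`a`, `b`, `c`. -/
def DegreeLE {Ω : Type} [Field Ω] (a b c i k : ℕ) (f : MvPolynomial (Fin 2) Ω) : Prop :=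
  ∀ m ∈ f.support, a * m 0 + b * m 1 + c * i ≤ k

/-- The equation for a plane curve. -/
def IsCurve (Ω : Type) {M : Type} [Field Ω] [Field M] [Algebra Ω M] (n : ℕ) (x y w : M) : Prop :=
  ∃ (r : ℕ) (d e : Fin r → ℕ) (f : Fin r → MvPolynomial (Fin 2) Ω),
    (∀ i, (f i).totalDegree ≤ d i) ∧ n ∣ ∑ i, d i * e i ∧
    (n ≤ 10 ∧ (∀ k < n, 2 * k ≠ n ∨ n = 2 → ∑ i, d i * (k * e i % n) ≤ 2 * n ∨
        ∑ i, d i * ((n - k) * e i % n) ≤ 2 * n) ∨
      r ≤ 3 ∧ (∑ i, d i ≤ 4 ∨ ∑ i, d i = 5 ∧ (Finset.univ.filter fun i => d i = 1).card ≤ 1)) ∧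
    w ^ n = ∏ i, aeval ![x, y] (f i) ^ e i

/-- The equation `w ^ n = f(x, y)`, `n = 2, 3, 4` or `6`, and `deg f ≤ n * (a + b)` for some weights
`a`, `b` of `x`, `y`. -/
def IsPower (Ω : Type) {M : Type} [Field Ω] [Field M] [Algebra Ω M] (n : ℕ) (x y w : M) : Prop :=
  ∃ (a b : ℕ) (f : MvPolynomial (Fin 2) Ω), 0 < a + b ∧ (n = 2 ∨ n = 3 ∨ n = 4 ∨ n = 6) ∧
    DegreeLE a b 0 0 (n * (a + b)) f ∧ w ^ n = aeval ![x, y] f

/-- The equation `w ^ n = f(x, y) ^ s * h(x, y) ^ t / g(x, y) ^ (s + t)`, where for some weights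
`a, b, c` of `x, y, r` the degree of `f - r ^ t * g + r ^ (s + t) * h` is at most `a + b + c`. -/
def IsTrinomial (Ω : Type) {M : Type} [Field Ω] [Field M] [Algebra Ω M] (n : ℕ) (x y w : M) :
    Prop :=
  ∃ (a b c s t : ℕ) (f g h : MvPolynomial (Fin 2) Ω), 0 < a + b + c ∧ s.Coprime t ∧ 0 < s ∧
    0 < t ∧ DegreeLE a b c 0 (a + b + c) f ∧ DegreeLE a b c t (a + b + c) g ∧
    DegreeLE a b c (s + t) (a + b + c) h ∧ aeval ![x, y] g ≠ 0 ∧
    w ^ n * aeval ![x, y] g ^ (s + t) = aeval ![x, y] f ^ s * aeval ![x, y] h ^ t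

/-- `M = Ω(x, y, w)`, `R ⊆ Ω(x, y)` and `w ^ n ∈ Ω(x, y)`, `n = [M : Ω(x, y)]`, is given by one of
the equations. -/
def IsListed (Ω R M : Type) [Field Ω] [Field R] [Field M] [Algebra Ω M] [Algebra R M] : Prop :=
  ∃ x y w : M, (∀ r : R, algebraMap R M r ∈ adjoin Ω {x, y}) ∧ adjoin Ω {x, y, w} = ⊤ ∧
    (IsCurve Ω (Module.finrank (adjoin Ω {x, y}) M) x y w ∨
      IsPower Ω (Module.finrank (adjoin Ω {x, y}) M) x y w ∨
      IsTrinomial Ω (Module.finrank (adjoin Ω {x, y}) M) x y w)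

theorem IsPower.weighted {Ω M : Type} [Field Ω] [Field M] [Algebra Ω M] {n : ℕ} {x y w : M}
    (h : IsPower Ω n x y w) : Pool.Agent.Helper75.WC.IsWeighted Ω n x y w := by
  obtain ⟨a, b, f, hab, hn, hf, h⟩ := h
  have hf' : ∀ (c j : ℕ), c * j + n * (a + b) ≤ 2 * (a + b + c) →
      Pool.Agent.Helper75.WC.DegLE a b c j (2 * (a + b + c)) f := by
    intro c j hc m hm
    have h1 := hf m hm
    omega
  have hg : ∀ (c i k : ℕ), c * i ≤ k → Pool.Agent.Helper75.WC.DegLE a b c i k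
      (1 : MvPolynomial (Fin 2) Ω) := by
    classical
    intro c i k hc m hm
    rw [mem_support_iff, coeff_one] at hm
    have h1 : 0 = m := by
      by_contra h1
      rw [if_neg h1] at hm
      exact hm rfl
    subst h1
    simpa using hc
  have h1 : aeval ![x, y] (1 : MvPolynomial (Fin 2) Ω) ≠ 0 := by
    rw [map_one]
    exact one_ne_zero
  rcases hn with rfl | rfl | rfl | rfl
  · refine ⟨a, b, 0, 1, 0, f, 1, by omega, Or.inr rfl, hf' 0 0 (by omega), Or.inr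
      ⟨by decide, hg _ _ _ (by omega), 1, rfl, Or.inr rfl, ?_⟩⟩
    rw [h, map_one, one_pow, mul_one]
  · refine ⟨a, b, a + b, 2, 1, f, 1, by omega, Or.inl (by norm_num), hf' _ _ (by omega), Or.inl
      ⟨Or.inl rfl, hg _ _ _ (by omega), h1, ?_⟩⟩
    rw [h, map_one, one_pow, mul_one]
  · refine ⟨a, b, a + b, 2, 0, f, 1, by omega, Or.inl (by norm_num), hf' _ _ (by omega), Or.inl
      ⟨Or.inl rfl, hg _ _ _ (by omega), h1, ?_⟩⟩
    rw [h, map_one, one_pow, mul_one]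
  · refine ⟨a, b, 2 * (a + b), 3, 0, f, 1, by omega, Or.inl (by norm_num), hf' _ _ (by omega),
      Or.inr ⟨by decide, hg _ _ _ (by omega), 3, rfl, Or.inr rfl, ?_⟩⟩
    rw [h, map_one, one_pow, mul_one]

/-- **The whole list.** -/
theorem IsListed.row {Ω R M : Type} [Field Ω] [IsAlgClosed Ω] [Field R] [Field M] [Algebra Ω R]
    [Algebra Ω M] [Algebra R M] [IsScalarTower Ω R M] [FiniteDimensional R M] [IsGalois R M]
    (h : IsListed Ω R M) : Uniruled Ω M 2 ∨ LstN Ω R M := by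
  obtain ⟨x, y, w, hR, hM, h | h | h⟩ := h
  · obtain ⟨r, d, e, f, hd, hdvd, hc, heq⟩ := h
    rcases hc with ⟨hn, hc⟩ | ⟨hr, hc⟩
    · exact Or.inr (Pool.Agent.Helper43.V7.lstN_natM' x y w hR hM rfl hn d e f hd hdvd hc heq)
    · refine Or.inr (Or.inl (Pool.Agent.Helper75.WC.lstM_of_curve x y w hR hM
        ⟨r, d, e, f, hd, ?_, hdvd, Or.inr (Or.inr ⟨hr, ?_⟩), heq⟩))
      · rcases hc with hc | hc
        · omega
        · omega
      · rcases hc with hc | hc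
        · exact Or.inl hc
        · exact Or.inr hc.2
  · exact Or.inr (Or.inl ⟨x, y, w, hR, hM, Or.inl h.weighted⟩)
  · rcases Pool.Agent.Helper9.TR.row3_trinomial x y w hR hM h with h | h
    · exact Or.inl h
    · exact Or.inr (Or.inr h)

end Pool.Agent.Helper48.V7
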